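import Pool.Agent.R234.Lem.D

/-! The Lempert function of a spherical shell is continuous. -/

set_option autoImplicit false

open Metric Set
open Pool.Agent.R234.Lem

namespace Pool.Agent.Results.MP_5a1ff8_an.ShellLempert

/-- For every `n ≥ 2` there is a bounded domain `D` in `ℂ^n` with `C^∞` boundary which is not
pseudoconvex, while its Lempert function is continuous on `D × D`. -/
theorem result (n : ℕ) (hn : 2 ≤ n) :
    ∃ D : Set (EuclideanSpace ℂ (Fin n)), IsOpen D ∧ IsConnected D ∧ Bornology.IsBounded D ∧
      SmoothBoundary D ∧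
      ContinuousOn (fun p : EuclideanSpace ℂ (Fin n) × EuclideanSpace ℂ (Fin n) =>
        lempert D p.1 p.2) (D ×ˢ D) ∧
      ¬ Pseudoconvex D := by
  refine ⟨shell _, isOpen_shell, ?_, isBounded_shell _, smoothBoundary_shell _,
    continuousOn_lempert, ?_⟩
  · apply isConnected_shell
    apply Module.one_lt_rank_of_one_lt_finrank
    rw [finrank_real_of_complex, finrank_euclideanSpace_fin]
    omega
  · refine not_pseudoconvex_shell (e₀ := EuclideanSpace.single ⟨0, by omega⟩ 1)
      (e₁ := EuclideanSpace.single ⟨1, by omega⟩ 1) (by simp) (by simp) ?_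
    rw [EuclideanSpace.inner_single_left]
    simp

end Pool.Agent.Results.MP_5a1ff8_an.ShellLempert
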